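import Pool.Agent.ZES.StmtsF

/-!
ZES, row DIM: theta functions of order `n` are determined by `n ^ g` Fourier coefficients.
-/

namespace Pool.Agent.ZES.H42

open scoped BigOperators
open Pool.Agent.THS

theorem fc_zero {g : ℕ} (k : Fin g → ℤ) : fc (fun _ : Fin g → ℂ => (0 : ℂ)) k = 0 := by
  unfold fc
  simp

/-- (1): the coefficients in a system of residues determine the function. -/
theorem zero_of_coeffs (h2 : FuqStmt) (h3 : QprStmt) {g : ℕ} (τ : Matrix (Fin g) (Fin g) ℂ) (n : ℕ)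
    (hn : 1 ≤ n) (F : (Fin g → ℂ) → ℂ) (hF : F ∈ RR τ n)
    (hk : ∀ k : Fin g → Fin n, fc F (fun i => ((k i).val : ℤ)) = 0) : ∀ x, F x = 0 := by
  obtain ⟨hPE, hrec⟩ := h3 g τ n F hF
  refine h2 g F hPE ?_
  intro k
  have hnz : (0 : ℤ) < (n : ℤ) := by exact_mod_cast hn
  have hpos : ∀ i, 0 ≤ k i % (n : ℤ) := fun i => Int.emod_nonneg _ hnz.ne'
  have hlt : ∀ i, k i % (n : ℤ) < (n : ℤ) := fun i => Int.emod_lt_of_pos _ hnz
  let k0 : Fin g → Fin n := fun i => ⟨(k i % (n : ℤ)).toNat, by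
    have h1 := hpos i
    have h2 := hlt i
    omega⟩
  have e1 : (fun i => ((k0 i).val : ℤ)) = fun i => k i % (n : ℤ) := by
    funext i
    show (((k i % (n : ℤ)).toNat : ℕ) : ℤ) = k i % (n : ℤ)
    exact Int.toNat_of_nonneg (hpos i)
  have e2 : k = fun i => (fun i => k i % (n : ℤ)) i + (n : ℤ) * (fun i => k i / (n : ℤ)) i := by
    funext i
    exact (Int.emod_add_mul_ediv (k i) (n : ℤ)).symm
  have h0 : fc F (fun i => k i % (n : ℤ)) = 0 := by
    rw [← e1]
    exact hk k0
  have h1 := hrec (fun i => k i % (n : ℤ)) (fun i => k i / (n : ℤ))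
  rw [h0, mul_zero] at h1
  rw [e2]
  exact h1

/-- The Fourier coefficients as a linear map. -/
noncomputable def coeffs (h1 : FshStmt) (h3 : QprStmt) {g : ℕ} (τ : Matrix (Fin g) (Fin g) ℂ)
    (n : ℕ) : ↥(RR τ n) →ₗ[ℂ] ((Fin g → Fin n) → ℂ) where
  toFun F := fun k => fc F.1 (fun i => ((k i).val : ℤ))
  map_add' := by
    intro F G
    funext k
    have hF := (h3 g τ n F.1 F.2).1
    have hG := (h3 g τ n G.1 G.2).1
    have h := (h1 g F.1 hF (fun i => ((k i).val : ℤ))).2.2 G.1 hG 1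
    simp only [one_mul] at h
    exact h
  map_smul' := by
    intro c F
    funext k
    have hF := (h3 g τ n F.1 F.2).1
    have h0 : PE (fun _ : Fin g → ℂ => (0 : ℂ)) := ⟨differentiable_const 0, fun _ _ => rfl⟩
    have h := (h1 g _ h0 (fun i => ((k i).val : ℤ))).2.2 F.1 hF c
    rw [fc_zero, zero_add] at h
    simp only [zero_add] at h
    exact h

theorem dim (h1 : FshStmt) (h2 : FuqStmt) (h3 : QprStmt) : DimStmt := by
  intro g τ n hn
  have hinj : Function.Injective (coeffs h1 h3 τ n) := by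
    rw [injective_iff_map_eq_zero]
    intro F hF
    apply Subtype.ext
    funext x
    refine zero_of_coeffs h2 h3 τ n hn F.1 F.2 ?_ x
    intro k
    exact congrFun hF k
  refine ⟨fun F hF hk => zero_of_coeffs h2 h3 τ n hn F hF hk, ?_, ?_⟩
  · exact Module.Finite.of_injective (coeffs h1 h3 τ n) hinj
  · have h := LinearMap.finrank_le_finrank_of_injective hinj
    have e : Module.finrank ℂ ((Fin g → Fin n) → ℂ) = n ^ g := by
      simp
    rw [e] at h
    exact h

end Pool.Agent.ZES.H42
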